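import Mathlib
import Pool.Agent.X121.AB.WJ

set_option autoImplicit false

namespace Pool.Agent.X121.UH

open Finset Polynomial Pool.Agent.Y957.VK
open Pool.Agent.X121.AB (FT)

/-- `x` is irrational and a root of an irreducible integral polynomial of degree at most `D` whose
coefficients are at most `H` in absolute value -/
def AlgLe (D : ℕ) (H : ℝ) (x : ℝ) : Prop :=
  Irrational x ∧ ∃ P : ℤ[X], Irreducible P ∧ P.natDegree ≤ D ∧ (∀ i, |(P.coeff i : ℝ)| ≤ H) ∧
    aeval x P = 0

theorem pow_sub_le {x y R : ℝ} (hR : 1 ≤ R) (hx : |x| ≤ R) (hy : |y| ≤ R) (i : ℕ) :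
    |x ^ i - y ^ i| ≤ i * R ^ i * |x - y| := by
  induction i with
  | zero => simp
  | succ i ih =>
    have e : x ^ (i + 1) - y ^ (i + 1) = x * (x ^ i - y ^ i) + (x - y) * y ^ i := by ring
    have h1 : |y ^ i| ≤ R ^ (i + 1) := by
      rw [abs_pow]
      calc |y| ^ i ≤ R ^ i := pow_le_pow_left₀ (abs_nonneg _) hy i
        _ ≤ R ^ (i + 1) := pow_le_pow_right₀ hR (Nat.le_succ i)
    have hR0 : (0 : ℝ) ≤ R := by linarith
    rw [e]
    calc _ ≤ |x * (x ^ i - y ^ i)| + |(x - y) * y ^ i| := abs_add_le _ _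
      _ = |x| * |x ^ i - y ^ i| + |x - y| * |y ^ i| := by rw [abs_mul, abs_mul]
      _ ≤ R * (i * R ^ i * |x - y|) + |x - y| * R ^ (i + 1) := by gcongr
      _ = _ := by push_cast; ring

theorem no_rat_root {P : ℤ[X]} (hP : Irreducible P) {x : ℝ} (hx : Irrational x)
    (h0 : aeval x P = 0) (r : ℚ) : aeval r P ≠ 0 := by
  intro hr
  have hdeg : P.natDegree ≠ 0 := by
    intro h
    rw [eq_C_of_natDegree_eq_zero h, aeval_C, eq_intCast] at h0
    have : P.coeff 0 = 0 := by exact_mod_cast h0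
    apply hP.ne_zero
    rw [eq_C_of_natDegree_eq_zero h, this, C_0]
  have hprim : P.IsPrimitive := hP.isPrimitive hdeg
  have hirr : Irreducible (P.map (Int.castRingHom ℚ)) :=
    (Polynomial.IsPrimitive.Int.irreducible_iff_irreducible_map_cast hprim).1 hP
  have hroot : (P.map (Int.castRingHom ℚ)).IsRoot r := by
    rw [IsRoot.def, eval_map]
    rw [aeval_def] at hr
    exact hr
  have h1 := degree_eq_one_of_irreducible_of_root hirr hroot
  have h2 : P.natDegree = 1 := by
    have h3 := natDegree_eq_of_degree_eq_some h1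
    rwa [natDegree_map_eq_of_injective (RingHom.injective_int (Int.castRingHom ℚ))] at h3
  have h3 : aeval x P = (P.coeff 1 : ℝ) * x + P.coeff 0 := by
    rw [aeval_eq_sum_range, h2, Finset.sum_range_succ, Finset.sum_range_one]
    simp only [zsmul_eq_mul]
    ring
  rw [h3] at h0
  have h4 : P.coeff 1 ≠ 0 := by
    have := leadingCoeff_ne_zero.2 hP.ne_zero
    rwa [leadingCoeff, h2] at this
  have h5 : (P.coeff 1 : ℝ) ≠ 0 := by exact_mod_cast h4
  apply hx
  refine ⟨-(P.coeff 0 : ℚ) / P.coeff 1, ?_⟩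
  push_cast
  field_simp
  linarith

/-- Liouville's inequality, with explicit constants -/
theorem liou {D : ℕ} {H x : ℝ} (hx : AlgLe D H x) :
    FT x (1 / ((D + 1) * D * H * (H + 3) ^ D)) D := by
  obtain ⟨hirr, P, hP, hdeg, hH, h0⟩ := hx
  intro q hq
  have hlead : 1 ≤ |(P.leadingCoeff : ℝ)| := by
    have h1 : (1 : ℤ) ≤ |P.leadingCoeff| := Int.one_le_abs (leadingCoeff_ne_zero.2 hP.ne_zero)
    exact_mod_cast h1
  have hH1 : 1 ≤ H := hlead.trans (hH _)
  have hD1 : 1 ≤ D := by
    by_contra hcon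
    have hD0 : P.natDegree = 0 := by omega
    rw [eq_C_of_natDegree_eq_zero hD0, aeval_C, eq_intCast] at h0
    have : P.coeff 0 = 0 := by exact_mod_cast h0
    apply hP.ne_zero
    rw [eq_C_of_natDegree_eq_zero hD0, this, C_0]
  -- Cauchy's bound
  have hx1 : |x| ≤ H + 1 := by
    have hP' : P.map (Int.castRingHom ℝ) ≠ 0 :=
      (Polynomial.map_ne_zero_iff (RingHom.injective_int (Int.castRingHom ℝ))).2 hP.ne_zero
    have hroot : (P.map (Int.castRingHom ℝ)).IsRoot x := by
      rw [IsRoot.def, eval_map]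
      rw [aeval_def] at h0
      exact h0
    have h1 := hroot.norm_lt_cauchyBound hP'
    have h2 : ((P.map (Int.castRingHom ℝ)).cauchyBound : ℝ) ≤ H + 1 := by
      unfold cauchyBound
      push_cast
      have h3 : (((sup (range (P.map (Int.castRingHom ℝ)).natDegree)
          fun i => ‖(P.map (Int.castRingHom ℝ)).coeff i‖₊ : NNReal) : ℝ)) ≤ H := by
        have h4 : (sup (range (P.map (Int.castRingHom ℝ)).natDegree)
          fun i => ‖(P.map (Int.castRingHom ℝ)).coeff i‖₊) ≤ (⟨H, by linarith⟩ : NNReal) := by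
          apply Finset.sup_le
          intro i _
          apply NNReal.coe_le_coe.1
          have h5 : ((‖(P.map (Int.castRingHom ℝ)).coeff i‖₊ : NNReal) : ℝ) = |(P.coeff i : ℝ)| := by
            rw [coe_nnnorm, coeff_map, eq_intCast, Real.norm_eq_abs]
          rw [h5]
          exact hH i
        exact_mod_cast h4
      have h5 : ‖(P.map (Int.castRingHom ℝ)).leadingCoeff‖ = |(P.leadingCoeff : ℝ)| := by
        rw [leadingCoeff_map_of_injective (RingHom.injective_int (Int.castRingHom ℝ))]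
        simp
      rw [h5]
      have h6 : (((sup (range (P.map (Int.castRingHom ℝ)).natDegree)
          fun i => ‖(P.map (Int.castRingHom ℝ)).coeff i‖₊ : NNReal) : ℝ)) / |(P.leadingCoeff : ℝ)| ≤
          H := by
        rw [div_le_iff₀ (by linarith)]
        nlinarith
      linarith
    have h1' : |x| < ((P.map (Int.castRingHom ℝ)).cauchyBound : ℝ) := by
      rw [← Real.norm_eq_abs, ← coe_nnnorm]
      exact_mod_cast h1
    linarith
  have hq0 : (0 : ℝ) < |(q : ℝ)| := abs_pos.2 (by exact_mod_cast hq)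
  have hq1 : (1 : ℝ) ≤ |(q : ℝ)| := by exact_mod_cast Int.one_le_abs hq
  have hqne : (q : ℝ) ≠ 0 := by exact_mod_cast hq
  obtain ⟨p, hp⟩ : ∃ p : ℤ, p = round (x * q) := ⟨_, rfl⟩
  have hdz : dz (x * q) = |x * q - p| := by rw [hp]; rfl
  have hhalf : |x * q - p| ≤ 1 / 2 := by rw [hp]; exact abs_sub_round _
  obtain ⟨r, hr⟩ : ∃ r : ℚ, r = (p : ℚ) / q := ⟨_, rfl⟩
  have hrR : (r : ℝ) = p / q := by rw [hr]; push_cast; rfl
  have hxr : |x - r| = |x * q - p| / |(q : ℝ)| := by
    rw [← abs_div, hrR]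
    congr 1
    field_simp
  have hxr1 : |x - r| ≤ 1 := by
    rw [hxr, div_le_one hq0]
    linarith
  have hrle : |(r : ℝ)| ≤ H + 2 := by
    calc |(r : ℝ)| = |x - (x - r)| := by congr 1; ring
      _ ≤ |x| + |x - r| := abs_sub _ _
      _ ≤ _ := by linarith
  -- the value at `r`
  have hne := no_rat_root hP hirr h0 r
  have hval : (1 : ℝ) ≤ |(q : ℝ)| ^ D * |((aeval r P : ℚ) : ℝ)| := by
    have h1 : ((q : ℚ) ^ D * aeval r P) = ((∑ i ∈ range (P.natDegree + 1),
        P.coeff i * p ^ i * q ^ (D - i) : ℤ) : ℚ) := by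
      rw [aeval_eq_sum_range, Finset.mul_sum]
      push_cast
      refine Finset.sum_congr rfl fun i hi => ?_
      rw [Finset.mem_range] at hi
      have hqQ : (q : ℚ) ≠ 0 := by exact_mod_cast hq
      have e2 : (q : ℚ) ^ D = q ^ i * q ^ (D - i) := by
        rw [← pow_add]
        congr 1
        omega
      rw [hr, zsmul_eq_mul, e2, div_pow]
      field_simp
    have h2 : (∑ i ∈ range (P.natDegree + 1), P.coeff i * p ^ i * q ^ (D - i) : ℤ) ≠ 0 := by
      intro h
      rw [h, Int.cast_zero] at h1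
      rcases mul_eq_zero.1 h1 with h3 | h3
      · have hqQ : (q : ℚ) ≠ 0 := by exact_mod_cast hq
        exact (pow_ne_zero _ hqQ) h3
      · exact hne h3
    have h3 : (1 : ℤ) ≤ |∑ i ∈ range (P.natDegree + 1), P.coeff i * p ^ i * q ^ (D - i)| :=
      Int.one_le_abs h2
    have h4 : (1 : ℚ) ≤ |(q : ℚ) ^ D * aeval r P| := by
      rw [h1]
      exact_mod_cast h3
    have h5 : ((|(q : ℚ) ^ D * aeval r P| : ℚ) : ℝ) = |(q : ℝ)| ^ D * |((aeval r P : ℚ) : ℝ)| := by
      push_cast
      rw [abs_mul, abs_pow]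
    rw [← h5]
    exact_mod_cast h4
  have hdiff : |((aeval r P : ℚ) : ℝ)| ≤ (D + 1) * D * H * (H + 3) ^ D * |x - r| := by
    have e1 : ((aeval r P : ℚ) : ℝ) = ∑ i ∈ range (P.natDegree + 1), (P.coeff i : ℝ) * (r : ℝ) ^ i := by
      rw [aeval_eq_sum_range]
      push_cast
      exact Finset.sum_congr rfl fun i _ => by rw [zsmul_eq_mul]; push_cast; ring
    have e2 : (0 : ℝ) = ∑ i ∈ range (P.natDegree + 1), (P.coeff i : ℝ) * x ^ i := by
      rw [← h0, aeval_eq_sum_range]
      exact Finset.sum_congr rfl fun i _ => by rw [zsmul_eq_mul]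
    have e3 : ((aeval r P : ℚ) : ℝ) =
        ∑ i ∈ range (P.natDegree + 1), (P.coeff i : ℝ) * ((r : ℝ) ^ i - x ^ i) := by
      calc ((aeval r P : ℚ) : ℝ) = ((aeval r P : ℚ) : ℝ) - 0 := by ring
        _ = _ := by
          rw [e1, e2, ← Finset.sum_sub_distrib]
          exact Finset.sum_congr rfl fun i _ => by ring
    rw [e3]
    refine (Finset.abs_sum_le_sum_abs _ _).trans ?_
    have hterm : ∀ i ∈ range (P.natDegree + 1), |(P.coeff i : ℝ) * ((r : ℝ) ^ i - x ^ i)| ≤
        D * H * (H + 3) ^ D * |x - r| := by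
      intro i hi
      rw [Finset.mem_range] at hi
      have hiD : i ≤ D := by omega
      rw [abs_mul]
      have h1 := pow_sub_le (x := (r : ℝ)) (y := x) (R := H + 3) (by linarith) (by linarith)
        (by linarith) i
      have h2 : (H + 3) ^ i ≤ (H + 3) ^ D := pow_le_pow_right₀ (by linarith) hiD
      have h3 : (i : ℝ) ≤ D := by exact_mod_cast hiD
      rw [abs_sub_comm (r : ℝ) x] at h1
      calc |(P.coeff i : ℝ)| * |(r : ℝ) ^ i - x ^ i| ≤ H * (i * (H + 3) ^ i * |x - r|) := by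
            gcongr
            exact hH i
        _ ≤ H * (D * (H + 3) ^ D * |x - r|) := by gcongr
        _ = _ := by ring
    refine (Finset.sum_le_sum hterm).trans ?_
    rw [Finset.sum_const, Finset.card_range, nsmul_eq_mul]
    have h5 : ((P.natDegree + 1 : ℕ) : ℝ) ≤ D + 1 := by
      push_cast
      have : (P.natDegree : ℝ) ≤ D := by exact_mod_cast hdeg
      linarith
    have h6 : 0 ≤ D * H * (H + 3) ^ D * |x - r| := by positivity
    calc _ ≤ (D + 1) * (D * H * (H + 3) ^ D * |x - r|) := by gcongr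
      _ = _ := by ring
  rw [hdz]
  have hK : (0 : ℝ) < (D + 1) * D * H * (H + 3) ^ D := by
    have : (0 : ℝ) < D := by exact_mod_cast hD1
    positivity
  rw [div_div, div_le_iff₀ (by positivity)]
  have h7 : |x - r| ≤ |x * q - p| := by
    rw [hxr]
    exact div_le_self (abs_nonneg _) hq1
  calc (1 : ℝ) ≤ |(q : ℝ)| ^ D * |((aeval r P : ℚ) : ℝ)| := hval
    _ ≤ |(q : ℝ)| ^ D * ((D + 1) * D * H * (H + 3) ^ D * |x - r|) := by gcongr
    _ ≤ |(q : ℝ)| ^ D * ((D + 1) * D * H * (H + 3) ^ D * |x * q - p|) := by gcongr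
    _ = _ := by ring

/-- the number of these algebraic numbers -/
theorem alg_finset (D : ℕ) {H : ℝ} (hH : 1 ≤ H) : ∃ S : Finset ℝ, (∀ x, AlgLe D H x → x ∈ S) ∧
    (S.card : ℝ) ≤ D * (3 * H) ^ (D + 1) := by
  classical
  obtain ⟨M, hM⟩ : ∃ M : ℤ, M = ⌊H⌋ := ⟨_, rfl⟩
  have hM0 : 1 ≤ M := by
    rw [hM, Int.le_floor]
    exact_mod_cast hH
  let pol : (Fin (D + 1) → ℤ) → ℤ[X] := fun c => ∑ i : Fin (D + 1), C (c i) * X ^ (i : ℕ)
  have hpoldeg : ∀ c, (pol c).natDegree ≤ D := by
    intro c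
    refine natDegree_sum_le_of_forall_le _ _ fun i _ => ?_
    refine (natDegree_C_mul_X_pow_le _ _).trans ?_
    omega
  refine ⟨(Fintype.piFinset fun _ : Fin (D + 1) => Finset.Icc (-M) M).biUnion
    fun c => ((pol c).map (Int.castRingHom ℝ)).roots.toFinset, ?_, ?_⟩
  · rintro x ⟨hirr, P, hP, hdeg, hc, h0⟩
    rw [Finset.mem_biUnion]
    refine ⟨fun i => P.coeff i, ?_, ?_⟩
    · rw [Fintype.mem_piFinset]
      intro i
      rw [Finset.mem_Icc, ← abs_le, hM, Int.le_floor]
      push_cast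
      exact hc i
    · have e : pol (fun i => P.coeff i) = P := by
        show ∑ i : Fin (D + 1), C (P.coeff i) * X ^ (i : ℕ) = P
        rw [Fin.sum_univ_eq_sum_range (fun i => C (P.coeff i) * X ^ i) (D + 1)]
        exact (P.as_sum_range_C_mul_X_pow' (by omega)).symm
      rw [e, Multiset.mem_toFinset, mem_roots ((Polynomial.map_ne_zero_iff
        (RingHom.injective_int (Int.castRingHom ℝ))).2 hP.ne_zero), IsRoot.def, eval_map]
      rw [aeval_def] at h0
      exact h0
  · have h1 : (((Fintype.piFinset fun _ : Fin (D + 1) => Finset.Icc (-M) M).biUnion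
        fun c => ((pol c).map (Int.castRingHom ℝ)).roots.toFinset).card) ≤
        ∑ c ∈ Fintype.piFinset fun _ : Fin (D + 1) => Finset.Icc (-M) M, D := by
      refine (Finset.card_biUnion_le).trans (Finset.sum_le_sum fun c _ => ?_)
      refine (Multiset.toFinset_card_le _).trans ((card_roots' _).trans ?_)
      exact (natDegree_map_le).trans (hpoldeg c)
    rw [Finset.sum_const, Fintype.card_piFinset_const, smul_eq_mul, Int.card_Icc] at h1
    have h2 : ((M + 1 - -M).toNat : ℝ) ≤ 3 * H := by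
      have h3 : (((M + 1 - -M).toNat : ℤ) : ℝ) = 2 * M + 1 := by
        rw [Int.toNat_of_nonneg (by omega)]
        push_cast
        ring
      have h4 : (M : ℝ) ≤ H := by rw [hM]; exact Int.floor_le H
      have h5 : ((M + 1 - -M).toNat : ℝ) = (((M + 1 - -M).toNat : ℤ) : ℝ) := by push_cast; rfl
      rw [h5, h3]
      linarith
    calc _ ≤ (((M + 1 - -M).toNat ^ (D + 1) * D : ℕ) : ℝ) := by
          exact_mod_cast h1
      _ = ((M + 1 - -M).toNat : ℝ) ^ (D + 1) * D := by push_cast; rfl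
      _ ≤ (3 * H) ^ (D + 1) * D := by gcongr
      _ = _ := by ring

end Pool.Agent.X121.UH
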