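import Pool.Agent.X121.UH.One
import Pool.Agent.X121.UH.Liou

set_option autoImplicit false

namespace Pool.Agent.X121.UH

open Finset Pool.Agent.Y957.VK Filter Polynomial
open Pool.Agent.Y93.VK (ee norm_ee)
open Pool.Agent.X121.AB

/-- the counting error for some interval is more than `E` -/
def Bad (x E : ℝ) (N b : ℕ) : Prop := ∃ u v : ℝ, 0 ≤ u ∧ u ≤ v ∧ v ≤ 1 ∧
  E < |(((Finset.Icc 1 N).filter fun i => u ≤ Int.fract (x * (b : ℝ) ^ i) ∧
      Int.fract (x * (b : ℝ) ^ i) < v).card : ℝ) - (v - u) * N|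

theorem FT_mono {x c c' : ℝ} {τ : ℕ} (h : FT x c τ) (hc : c' ≤ c) : FT x c' τ := by
  intro q hq
  refine le_trans ?_ (h q hq)
  gcongr

theorem triv {x E : ℝ} {N b : ℕ} (hE : (N : ℝ) ≤ E) : ¬ Bad x E N b := by
  rintro ⟨u, v, h1, h2, h3, h4⟩
  have h5 : (((Finset.Icc 1 N).filter fun i => u ≤ Int.fract (x * (b : ℝ) ^ i) ∧
      Int.fract (x * (b : ℝ) ^ i) < v).card : ℝ) ≤ N := by
    have := Finset.card_filter_le (Finset.Icc 1 N) (fun i => u ≤ Int.fract (x * (b : ℝ) ^ i) ∧
      Int.fract (x * (b : ℝ) ^ i) < v)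
    rw [Nat.card_Icc, Nat.add_sub_cancel] at this
    exact_mod_cast this
  have h6 : |(((Finset.Icc 1 N).filter fun i => u ≤ Int.fract (x * (b : ℝ) ^ i) ∧
      Int.fract (x * (b : ℝ) ^ i) < v).card : ℝ) - (v - u) * N| ≤ N := by
    rw [abs_le]
    have h7 : (0 : ℝ) ≤ (((Finset.Icc 1 N).filter fun i => u ≤ Int.fract (x * (b : ℝ) ^ i) ∧
      Int.fract (x * (b : ℝ) ^ i) < v).card : ℝ) := Nat.cast_nonneg _
    have h8 : (v - u) * N ≤ 1 * N := by
      apply mul_le_mul_of_nonneg_right (by linarith) (Nat.cast_nonneg _)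
    have h9 : 0 ≤ (v - u) * N := mul_nonneg (by linarith) (Nat.cast_nonneg _)
    constructor <;> linarith
  linarith

theorem log_ge {N : ℕ} (hN : 1 ≤ N) : (2 : ℝ) / 3 ≤ Real.log (N + 1) := by
  refine log_two_bd.trans ?_
  have : (1 : ℝ) ≤ N := by exact_mod_cast hN
  exact Real.log_le_log (by norm_num) (by linarith)

theorem not_bad' {x : ℝ} {k N b : ℕ} (hN : 1 ≤ N) (hk : 1 ≤ k)
    (h : ∀ n ∈ Finset.Icc 1 N, SS' x n N b < √(9 * k * N)) {E : ℝ}
    (hE : 24 * (√(k * N) * Real.log (N + 1)) ≤ E) : ¬ Bad x E N b := by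
  rintro ⟨u, v, hu, huv, hv, hlt⟩
  have hN0 : (1 : ℝ) ≤ N := by exact_mod_cast hN
  have hk0 : (1 : ℝ) ≤ k := by exact_mod_cast hk
  have hT0 : 0 ≤ √(9 * k * N : ℝ) := Real.sqrt_nonneg _
  have h1 := erdos_turan (fun i => x * (b : ℝ) ^ i) hN (T := √(9 * k * N))
    (fun n hn1 hn2 => (h n (Finset.mem_Icc.2 ⟨hn1, hn2⟩)).le) hT0 hu huv hv
  have hl := log_ge hN
  have e1 : √(9 * k * N : ℝ) = 3 * √(k * N) := by
    rw [show (9 * k * N : ℝ) = 3 ^ 2 * (k * N) by ring, Real.sqrt_mul (by norm_num),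
      Real.sqrt_sq (by norm_num)]
  have e2 : √(N : ℝ) ≤ √(k * N) := by
    apply Real.sqrt_le_sqrt
    nlinarith
  have hlog : Real.log N ≤ Real.log (N + 1) := Real.log_le_log (by linarith) (by linarith)
  have h0 : 0 ≤ √(k * N : ℝ) := Real.sqrt_nonneg _
  have h2 : 2 * (√(N : ℝ) + √(9 * k * N) * (1 + Real.log N)) ≤
      24 * (√(k * N) * Real.log (N + 1)) := by
    rw [e1]
    have h3 : √(k * N : ℝ) * (1 + Real.log N) ≤ √(k * N) * (5 / 2 * Real.log (N + 1)) := by
      apply mul_le_mul_of_nonneg_left _ h0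
      linarith
    have h4 : √(k * N : ℝ) ≤ √(k * N) * (3 / 2 * Real.log (N + 1)) := by
      nlinarith
    nlinarith
  linarith

open Classical in
theorem alg_large (D : ℕ) : ∃ C : ℝ, 4 ≤ C ∧ ∀ᶠ B : ℕ in atTop, ∀ B₀ : ℕ, ∀ t : ℝ, 0 ≤ t →
    (((Finset.Icc 1 B).filter fun b => ∃ x, AlgLe D (Real.exp t) x ∧ ∃ N : ℕ, 1 ≤ N ∧
      (N : ℝ) ≤ (Real.log B) ^ (1 / 7 : ℝ) ∧
      Bad x (C * (√(N * (t + Real.log (N + 1))) * Real.log (N + 1))) N (b + B₀)).card : ℝ) ≤
      C * Real.exp (-t) * B := by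
  obtain ⟨E, hE⟩ : ∃ E : ℝ, E = max 1 (Real.log (D * 3 ^ (D + 1) + 1)) := ⟨_, rfl⟩
  have hE1 : 1 ≤ E := by rw [hE]; exact le_max_left _ _
  have hE2 : (D : ℝ) * 3 ^ (D + 1) ≤ Real.exp E := by
    have h1 : Real.log (D * 3 ^ (D + 1) + 1) ≤ E := by rw [hE]; exact le_max_right _ _
    have h2 := Real.exp_le_exp.2 h1
    rw [Real.exp_log (by positivity)] at h2
    linarith
  obtain ⟨C₁, hC₁⟩ : ∃ C₁ : ℝ, C₁ = D + 4 + (E + 1) * (3 / 2) := ⟨_, rfl⟩
  have hC₁4 : 4 ≤ C₁ := by
    rw [hC₁]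
    have : (0 : ℝ) ≤ D := Nat.cast_nonneg D
    linarith
  refine ⟨24 * C₁, by linarith, ?_⟩
  have hy : Tendsto (fun B : ℕ => (Real.log B) ^ (1 / 70 : ℝ)) atTop atTop :=
    (tendsto_rpow_atTop (by norm_num)).comp (Real.tendsto_log_atTop.comp tendsto_natCast_atTop_atTop)
  filter_upwards [hy.eventually (one_bad D), eventually_ge_atTop 1,
    hy.eventually (eventually_ge_atTop (5 * (D : ℝ) + 5))] with B hB1 hB2 hB3
  intro B₀ t ht
  have hlog : 0 ≤ Real.log B := Real.log_nonneg (by exact_mod_cast hB2)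
  obtain ⟨y, hyd⟩ : ∃ y : ℝ, y = (Real.log B) ^ (1 / 70 : ℝ) := ⟨_, rfl⟩
  have hy0 : 0 ≤ y := by rw [hyd]; positivity
  have hy70 : y ^ 70 = Real.log B := by
    rw [hyd, ← Real.rpow_natCast, ← Real.rpow_mul hlog]; norm_num
  have hy10 : y ^ 10 = (Real.log B) ^ (1 / 7 : ℝ) := by
    rw [hyd, ← Real.rpow_natCast, ← Real.rpow_mul hlog]; norm_num
  rw [← hyd] at hB1 hB3
  have hD0 : (0 : ℝ) ≤ D := Nat.cast_nonneg D
  have hy5 : 5 ≤ y := by linarith
  have hB1' := hB1 B (by rw [hy70, Real.exp_log (by exact_mod_cast (by omega : 0 < B))])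
  rw [← hy10]
  obtain ⟨S, hS1, hS2⟩ := alg_finset D (H := Real.exp t) (Real.one_le_exp ht)
  -- the order of the moments
  obtain ⟨k, hk⟩ : ∃ k : ℕ → ℕ, ∀ N, k N = ⌈(D + 2) * t + 2 * Real.log (N + 1) + E⌉₊ :=
    ⟨_, fun N => rfl⟩
  have hlogN : ∀ N : ℕ, 0 ≤ Real.log ((N : ℝ) + 1) := fun N =>
    Real.log_nonneg (by have : (0 : ℝ) ≤ N := Nat.cast_nonneg N; linarith)
  have hk_ge : ∀ N : ℕ, (D + 2) * t + 2 * Real.log (N + 1) + E ≤ k N := fun N => by
    rw [hk]; exact Nat.le_ceil _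
  have hk_le : ∀ N : ℕ, 1 ≤ N → (k N : ℝ) ≤ C₁ * (t + Real.log (N + 1)) := fun N hN => by
    have h1 : (k N : ℝ) < (D + 2) * t + 2 * Real.log (N + 1) + E + 1 := by
      rw [hk]
      apply Nat.ceil_lt_add_one
      have := hlogN N
      positivity
    have h2 := log_ge hN
    rw [hC₁]
    have h3 : 0 ≤ (2 + (E + 1) * (3 / 2)) * t := by positivity
    have h4 : 0 ≤ ((D : ℝ) + 2) * Real.log (N + 1) := by have := hlogN N; positivity
    have h5 : E + 1 ≤ (E + 1) * (3 / 2) * Real.log (N + 1) := by nlinarith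
    nlinarith
  have hk1 : ∀ N : ℕ, 1 ≤ k N := fun N => by
    have h1 := hk_ge N
    have h2 := hlogN N
    have h3 : (1 : ℝ) ≤ k N := by
      have : 0 ≤ ((D : ℝ) + 2) * t := by positivity
      linarith
    exact_mod_cast h3
  have hsub : ((Finset.Icc 1 B).filter fun b => ∃ x, AlgLe D (Real.exp t) x ∧ ∃ N : ℕ, 1 ≤ N ∧
      (N : ℝ) ≤ y ^ 10 ∧
      Bad x (24 * C₁ * (√(N * (t + Real.log (N + 1))) * Real.log (N + 1))) N (b + B₀)) ⊆
      (S.filter (AlgLe D (Real.exp t))).biUnion fun x =>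
        ((Finset.Icc 1 ⌊y ^ 10⌋₊).filter fun N => k N ≤ N).biUnion fun N =>
        (Finset.Icc 1 N).biUnion fun h =>
        (Finset.Icc 1 B).filter fun b => √(9 * (k N : ℕ) * N) ≤ SS' x h N (b + B₀) := by
    intro b hb
    rw [Finset.mem_filter] at hb
    obtain ⟨hb1, x, hx, N, hN1, hN2, hbad⟩ := hb
    rw [Finset.mem_biUnion]
    refine ⟨x, Finset.mem_filter.2 ⟨hS1 x hx, hx⟩, ?_⟩
    rw [Finset.mem_biUnion]
    have hN0 : (1 : ℝ) ≤ N := by exact_mod_cast hN1
    have hle := hk_le N hN1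
    have hl := log_ge hN1
    have hq0 : 0 ≤ t + Real.log (N + 1) := by linarith
    have hC₁s : √C₁ ≤ C₁ := by
      rw [Real.sqrt_le_left (by linarith)]
      nlinarith
    have hsq : √(k N * N : ℝ) ≤ C₁ * √(N * (t + Real.log (N + 1))) := by
      calc √(k N * N : ℝ) ≤ √(C₁ * (N * (t + Real.log (N + 1)))) := by
            apply Real.sqrt_le_sqrt
            calc (k N : ℝ) * N ≤ C₁ * (t + Real.log (N + 1)) * N := by gcongr
              _ = _ := by ring
        _ = √C₁ * √(N * (t + Real.log (N + 1))) := Real.sqrt_mul (by linarith) _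
        _ ≤ _ := by gcongr
    have hE' : 24 * (√(k N * N : ℝ) * Real.log (N + 1)) ≤
        24 * C₁ * (√(N * (t + Real.log (N + 1))) * Real.log (N + 1)) := by
      calc 24 * (√(k N * N : ℝ) * Real.log (N + 1)) ≤
            24 * ((C₁ * √(N * (t + Real.log (N + 1)))) * Real.log (N + 1)) := by gcongr
        _ = _ := by ring
    by_cases hkN : k N ≤ N
    · refine ⟨N, Finset.mem_filter.2 ⟨Finset.mem_Icc.2 ⟨hN1, Nat.le_floor hN2⟩, hkN⟩, ?_⟩
      rw [Finset.mem_biUnion]
      by_contra hcon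
      push Not at hcon
      refine not_bad' (k := k N) hN1 (hk1 N) (fun n hn => ?_) hE' hbad
      by_contra hge
      exact hcon n hn (Finset.mem_filter.2 ⟨hb1, not_lt.1 hge⟩)
    · exfalso
      refine triv ?_ hbad
      refine le_trans ?_ hE'
      push Not at hkN
      have h1 : (N : ℝ) ≤ k N := by exact_mod_cast hkN.le
      have h2 : (N : ℝ) ≤ √(k N * N : ℝ) := by
        apply Real.le_sqrt_of_sq_le
        nlinarith
      nlinarith
  have hcard : (((Finset.Icc 1 B).filter fun b => ∃ x, AlgLe D (Real.exp t) x ∧ ∃ N : ℕ, 1 ≤ N ∧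
      (N : ℝ) ≤ y ^ 10 ∧
      Bad x (24 * C₁ * (√(N * (t + Real.log (N + 1))) * Real.log (N + 1))) N (b + B₀)).card : ℝ) ≤
      ∑ x ∈ S.filter (AlgLe D (Real.exp t)), ∑ N ∈ (Finset.Icc 1 ⌊y ^ 10⌋₊).filter fun N => k N ≤ N,
        ∑ h ∈ Finset.Icc 1 N, (((Finset.Icc 1 B).filter fun b =>
          √(9 * (k N : ℕ) * N) ≤ SS' x h N (b + B₀)).card : ℝ) := by
    have h1 := (Finset.card_le_card hsub).trans (Finset.card_biUnion_le.trans
      (Finset.sum_le_sum fun x _ => Finset.card_biUnion_le.trans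
        (Finset.sum_le_sum fun N _ => Finset.card_biUnion_le)))
    exact_mod_cast h1
  refine hcard.trans ?_
  have hterm : ∀ x ∈ S.filter (AlgLe D (Real.exp t)),
      ∑ N ∈ (Finset.Icc 1 ⌊y ^ 10⌋₊).filter fun N => k N ≤ N,
        ∑ h ∈ Finset.Icc 1 N, (((Finset.Icc 1 B).filter fun b =>
          √(9 * (k N : ℕ) * N) ≤ SS' x h N (b + B₀)).card : ℝ) ≤
      4 * B * Real.exp (-(2 * ((D + 2) * t + E))) := by
    intro x hx
    have hxA := (Finset.mem_filter.1 hx).2
    calc _ ≤ ∑ N ∈ (Finset.Icc 1 ⌊y ^ 10⌋₊).filter fun N => k N ≤ N,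
          (2 * B * Real.exp (-(2 * ((D + 2) * t + E)))) * (1 / (N : ℝ) ^ 2) := by
          refine Finset.sum_le_sum fun N hN => ?_
          rw [Finset.mem_filter, Finset.mem_Icc] at hN
          obtain ⟨⟨hN1, hN2⟩, hkN⟩ := hN
          have hN0 : (1 : ℝ) ≤ N := by exact_mod_cast hN1
          have hNy : (N : ℝ) ≤ y ^ 10 := (Nat.le_floor_iff (by positivity)).1 hN2
          have hkge := hk_ge N
          have hty : t ≤ y ^ 10 := by
            have h1 : (k N : ℝ) ≤ N := by exact_mod_cast hkN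
            have h2 := hlogN N
            have h3 : 0 ≤ ((D : ℝ) + 1) * t := by positivity
            nlinarith
          have hFT : FT x (Real.exp (-(y ^ 50))) D := by
            refine FT_mono (liou hxA) ?_
            have hexp4 : Real.exp t + 3 ≤ Real.exp (t + 2) := by
              have h1 : Real.exp (t + 2) = Real.exp t * (Real.exp 1 * Real.exp 1) := by
                rw [← Real.exp_add, ← Real.exp_add]; congr 1; ring
              have h2 : (2 : ℝ) ≤ Real.exp 1 := by
                have := Real.add_one_le_exp (1 : ℝ)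
                linarith
              have h3 : (4 : ℝ) ≤ Real.exp 1 * Real.exp 1 := by nlinarith
              have h4 := Real.one_le_exp ht
              rw [h1]
              nlinarith
            have hDe : (D + 1 : ℝ) * D ≤ Real.exp (2 * D) := by
              have h1 := Real.add_one_le_exp (D : ℝ)
              have h2 : Real.exp (2 * D) = Real.exp D * Real.exp D := by
                rw [← Real.exp_add]; congr 1; ring
              rw [h2]
              apply mul_le_mul h1 (by linarith) hD0 (Real.exp_nonneg _)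
            have hD1 : 1 ≤ D := by
              obtain ⟨hirr, P, hP, hdeg, hc, h0⟩ := hxA
              by_contra hcon
              have hD0 : P.natDegree = 0 := by omega
              rw [eq_C_of_natDegree_eq_zero hD0, aeval_C, eq_intCast] at h0
              have : P.coeff 0 = 0 := by exact_mod_cast h0
              apply hP.ne_zero
              rw [eq_C_of_natDegree_eq_zero hD0, this, C_0]
            have hpos : (0 : ℝ) < (D + 1) * D * Real.exp t * (Real.exp t + 3) ^ D := by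
              have : (0 : ℝ) < D := by exact_mod_cast hD1
              have := Real.exp_pos t
              positivity
            rw [Real.exp_neg, ← one_div]
            apply one_div_le_one_div_of_le hpos
            calc (D + 1) * D * Real.exp t * (Real.exp t + 3) ^ D ≤
                  Real.exp (2 * D) * Real.exp t * (Real.exp (t + 2)) ^ D := by gcongr
              _ = Real.exp (2 * D + t + D * (t + 2)) := by
                  rw [← Real.exp_nat_mul, ← Real.exp_add, ← Real.exp_add]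
              _ ≤ Real.exp (y ^ 50) := by
                  apply Real.exp_le_exp.2
                  have h1 : 2 * D + t + D * (t + 2) ≤ (5 * D + 1) * y ^ 10 := by
                    have h2 : 1 ≤ y ^ 10 := one_le_pow₀ (by linarith)
                    nlinarith
                  have h3 : (5 * D + 1) * y ^ 10 ≤ y * y ^ 10 := by
                    gcongr
                    linarith
                  calc _ ≤ y * y ^ 10 := h1.trans h3
                    _ = y ^ 11 := by ring
                    _ ≤ y ^ 50 := pow_le_pow_right₀ (by linarith) (by norm_num)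
          have hone : ∀ h ∈ Finset.Icc 1 N, (((Finset.Icc 1 B).filter fun b =>
              √(9 * (k N : ℕ) * N) ≤ SS' x h N (b + B₀)).card : ℝ) ≤
              2 * B * Real.exp (-(2 * k N)) := by
            intro h hh
            rw [Finset.mem_Icc] at hh
            refine hB1' x hFT B₀ N h (k N) hN1 hNy hh.1 ?_ (hk1 N) hkN
            have h1 : (h : ℝ) ≤ N := by exact_mod_cast hh.2
            have h2 : y ^ 10 ≤ y ^ 20 := pow_le_pow_right₀ (by linarith) (by norm_num)
            linarith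
          calc _ ≤ ∑ h ∈ Finset.Icc 1 N, 2 * B * Real.exp (-(2 * k N)) := Finset.sum_le_sum hone
            _ = N * (2 * B * Real.exp (-(2 * k N))) := by
                rw [Finset.sum_const, Nat.card_Icc, nsmul_eq_mul, Nat.add_sub_cancel]
            _ ≤ N * (2 * B * (Real.exp (-(2 * ((D + 2) * t + E))) * (1 / (N + 1 : ℝ) ^ 4))) := by
                have h1 : Real.exp (-(2 * k N)) ≤
                    Real.exp (-(2 * ((D + 2) * t + E))) * (1 / (N + 1 : ℝ) ^ 4) := by
                  have h2 : (1 / (N + 1 : ℝ) ^ 4) = Real.exp (-(4 * Real.log (N + 1))) := by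
                    rw [Real.exp_neg, ← one_div]
                    congr 1
                    rw [show (4 : ℝ) * Real.log (N + 1) = ((4 : ℕ) : ℝ) * Real.log (N + 1) by norm_num,
                      Real.exp_nat_mul, Real.exp_log (by linarith)]
                  rw [h2, ← Real.exp_add]
                  apply Real.exp_le_exp.2
                  linarith
                gcongr
            _ = (2 * B * Real.exp (-(2 * ((D + 2) * t + E)))) * (N / (N + 1 : ℝ) ^ 4) := by ring
            _ ≤ _ := by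
                have h1 : (N : ℝ) / (N + 1 : ℝ) ^ 4 ≤ 1 / (N : ℝ) ^ 2 := by
                  rw [div_le_div_iff₀ (by positivity) (by positivity)]
                  have h2 : (N : ℝ) ^ 3 ≤ (N + 1 : ℝ) ^ 3 :=
                    pow_le_pow_left₀ (by linarith) (by linarith) 3
                  have h3 : (N + 1 : ℝ) ^ 3 ≤ (N + 1 : ℝ) ^ 4 :=
                    pow_le_pow_right₀ (by linarith) (by norm_num)
                  calc (N : ℝ) * (N : ℝ) ^ 2 = (N : ℝ) ^ 3 := by ring
                    _ ≤ 1 * (N + 1 : ℝ) ^ 4 := by linarith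
                gcongr
      _ ≤ (2 * B * Real.exp (-(2 * ((D + 2) * t + E)))) * 2 := by
          rw [← Finset.mul_sum]
          apply mul_le_mul_of_nonneg_left _ (by positivity)
          refine le_trans ?_ (sum_inv_sq ⌊y ^ 10⌋₊)
          exact Finset.sum_le_sum_of_subset_of_nonneg (Finset.filter_subset _ _)
            fun _ _ _ => by positivity
      _ = _ := by ring
  have hcardS : ((S.filter (AlgLe D (Real.exp t))).card : ℝ) ≤ Real.exp (E + (D + 1) * t) := by
    have h1 : ((S.filter (AlgLe D (Real.exp t))).card : ℝ) ≤ S.card := by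
      exact_mod_cast Finset.card_filter_le _ _
    refine (h1.trans hS2).trans ?_
    rw [mul_pow, Real.exp_add]
    have h2 : (Real.exp t) ^ (D + 1) = Real.exp ((D + 1) * t) := by
      rw [← Real.exp_nat_mul]
      push_cast
      rfl
    rw [h2]
    calc (D : ℝ) * (3 ^ (D + 1) * Real.exp ((D + 1) * t)) =
          (D * 3 ^ (D + 1)) * Real.exp ((D + 1) * t) := by ring
      _ ≤ _ := by gcongr
  calc _ ≤ ∑ x ∈ S.filter (AlgLe D (Real.exp t)), 4 * B * Real.exp (-(2 * ((D + 2) * t + E))) :=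
        Finset.sum_le_sum hterm
    _ = (S.filter (AlgLe D (Real.exp t))).card * (4 * B * Real.exp (-(2 * ((D + 2) * t + E)))) := by
        rw [Finset.sum_const, nsmul_eq_mul]
    _ ≤ Real.exp (E + (D + 1) * t) * (4 * B * Real.exp (-(2 * ((D + 2) * t + E)))) := by gcongr
    _ = 4 * B * Real.exp ((E + (D + 1) * t) + -(2 * ((D + 2) * t + E))) := by
        rw [Real.exp_add (E + (D + 1) * t)]
        ring
    _ ≤ 4 * B * Real.exp (-t) := by
        gcongr
        have : 0 ≤ (D : ℝ) * t := by positivity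
        nlinarith
    _ ≤ 24 * C₁ * Real.exp (-t) * B := by
        have h1 : 4 ≤ 24 * C₁ := by linarith
        calc 4 * B * Real.exp (-t) = 4 * Real.exp (-t) * B := by ring
          _ ≤ _ := by gcongr

open Classical in
theorem alg_main (D : ℕ) : ∃ C : ℝ, ∀ B B₀ : ℕ, 1 ≤ B → ∀ t : ℝ, 0 ≤ t →
    (((Finset.Icc 1 B).filter fun b => ∃ x, AlgLe D (Real.exp t) x ∧ ∃ N : ℕ, 1 ≤ N ∧
      (N : ℝ) ≤ (Real.log B) ^ (1 / 7 : ℝ) ∧
      Bad x (C * (√(N * (t + Real.log (N + 1))) * Real.log (N + 1))) N (b + B₀)).card : ℝ) ≤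
      C * Real.exp (-t) * B := by
  obtain ⟨C₀, hC₀, h⟩ := alg_large D
  obtain ⟨K₀, hK₀⟩ := eventually_atTop.1 h
  obtain ⟨K, hK⟩ : ∃ K : ℝ, K = max 1 ((Real.log (K₀ + 1)) ^ (1 / 7 : ℝ)) := ⟨_, rfl⟩
  have hK1 : 1 ≤ K := by rw [hK]; exact le_max_left _ _
  refine ⟨max C₀ (3 * K), fun B B₀ hB t ht => ?_⟩
  have hmono : ∀ (x : ℝ) (N b : ℕ), 1 ≤ N → Bad x (max C₀ (3 * K) * (√(N * (t + Real.log (N + 1))) *
      Real.log (N + 1))) N b →
      Bad x (C₀ * (√(N * (t + Real.log (N + 1))) * Real.log (N + 1))) N b := by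
    rintro x N b hN ⟨u, v, h1, h2, h3, h4⟩
    refine ⟨u, v, h1, h2, h3, lt_of_le_of_lt ?_ h4⟩
    have := log_ge hN
    exact mul_le_mul_of_nonneg_right (le_max_left _ _) (by positivity)
  by_cases hBB : K₀ ≤ B
  · have h1 := hK₀ B hBB B₀ t ht
    refine le_trans ?_ (h1.trans ?_)
    · have h2 := Finset.card_le_card (Finset.monotone_filter_right (Finset.Icc 1 B)
        (p := fun b => ∃ x, AlgLe D (Real.exp t) x ∧ ∃ N : ℕ, 1 ≤ N ∧
          (N : ℝ) ≤ (Real.log B) ^ (1 / 7 : ℝ) ∧
          Bad x (max C₀ (3 * K) * (√(N * (t + Real.log (N + 1))) * Real.log (N + 1))) N (b + B₀))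
        (q := fun b => ∃ x, AlgLe D (Real.exp t) x ∧ ∃ N : ℕ, 1 ≤ N ∧
          (N : ℝ) ≤ (Real.log B) ^ (1 / 7 : ℝ) ∧
          Bad x (C₀ * (√(N * (t + Real.log (N + 1))) * Real.log (N + 1))) N (b + B₀))
        (by
          rintro b _ ⟨x, hx, N, h3, h4, h5⟩
          exact ⟨x, hx, N, h3, h4, hmono x N _ h3 h5⟩))
      exact_mod_cast h2
    · gcongr
      exact le_max_left _ _
  · -- small `B`
    have hempty : ((Finset.Icc 1 B).filter fun b => ∃ x, AlgLe D (Real.exp t) x ∧ ∃ N : ℕ, 1 ≤ N ∧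
        (N : ℝ) ≤ (Real.log B) ^ (1 / 7 : ℝ) ∧
        Bad x (max C₀ (3 * K) * (√(N * (t + Real.log (N + 1))) * Real.log (N + 1))) N (b + B₀)) =
        ∅ := by
      rw [Finset.filter_eq_empty_iff]
      rintro b _ ⟨x, -, N, hN1, hN2, hbad⟩
      refine triv ?_ hbad
      have hN0 : (1 : ℝ) ≤ N := by exact_mod_cast hN1
      have hNK : (N : ℝ) ≤ K := by
        calc (N : ℝ) ≤ (Real.log B) ^ (1 / 7 : ℝ) := hN2
          _ ≤ (Real.log (K₀ + 1)) ^ (1 / 7 : ℝ) := by
              apply Real.rpow_le_rpow (Real.log_nonneg (by exact_mod_cast hB)) _ (by norm_num)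
              apply Real.log_le_log (by exact_mod_cast hB)
              have : B ≤ K₀ + 1 := by omega
              exact_mod_cast this
          _ ≤ K := by rw [hK]; exact le_max_right _ _
      have hl := log_ge hN1
      have h1 : (2 : ℝ) / 3 ≤ √(N * (t + Real.log (N + 1))) := by
        apply Real.le_sqrt_of_sq_le
        nlinarith
      have h2 : (4 : ℝ) / 9 ≤ √(N * (t + Real.log (N + 1))) * Real.log (N + 1) := by nlinarith
      have h3 : 3 * K ≤ max C₀ (3 * K) := le_max_right _ _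
      calc (N : ℝ) ≤ K := hNK
        _ ≤ 3 * K * (4 / 9) := by linarith
        _ ≤ _ := by
          apply mul_le_mul h3 h2 (by norm_num)
          exact le_trans (by linarith) h3
    rw [hempty, Finset.card_empty, Nat.cast_zero]
    have : 0 ≤ max C₀ (3 * K) := le_trans (by linarith) (le_max_left _ _)
    positivity

end Pool.Agent.X121.UH
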