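import Pool.Agent.X121.AB.Fin
import Pool.Agent.X121.TV.Small

set_option autoImplicit false

namespace Pool.Agent.X121.UH

open Finset Pool.Agent.Y957.VK Filter Polynomial
open Pool.Agent.Y93.VK (ee norm_ee)
open Pool.Agent.X121.AB

/-- the number of exceptions for a moment of order `k` -/
theorem bad_card' {x : ℝ} {k N h B : ℕ} (B₀ : ℕ) (hN : 1 ≤ N) (hh : 1 ≤ h) (hk1 : 1 ≤ k) {Λ W : ℝ}
    (hW0 : 0 ≤ W)
    (hw : ∀ Q : ℤ[X], 1 ≤ Q.natDegree → (Q.natDegree : ℝ) ≤ N → |(Q.leadingCoeff : ℝ)| ≤ Λ →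
      ‖∑ b ∈ Finset.Icc 1 B, ee (x * ((Q.eval (b : ℤ) : ℤ) : ℝ))‖ ≤ W)
    (hk : (h : ℝ) * k ≤ Λ) :
    (((Finset.Icc 1 B).filter fun b => √(9 * k * N) ≤ SS' x h N (b + B₀)).card : ℝ) ≤
      B * Real.exp (-(2 * k)) + (N : ℝ) ^ k * W := by
  have hk0 : (0 : ℝ) < k := by exact_mod_cast hk1
  have hN0 : (0 : ℝ) < N := by exact_mod_cast hN
  have hT0 : 0 < √(9 * k * N : ℝ) := Real.sqrt_pos.2 (by positivity)
  have h1 := moment x N k h B B₀ hW0 (fun f hf g hg hne => weyl_Qp hh hw hk f hf g hg hne)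
  have h2 := markov (Finset.Icc 1 B) (fun b => SS' x h N (b + B₀)) (fun b => norm_nonneg _) hT0 k h1
  refine h2.trans ?_
  have hT2 : √(9 * k * N : ℝ) ^ (2 * k) = (9 * k * N : ℝ) ^ k := by
    rw [pow_mul, Real.sq_sqrt (by positivity)]
  rw [hT2, add_div]
  have hfac : (k.factorial : ℝ) ≤ (k : ℝ) ^ k := by exact_mod_cast Nat.factorial_le_pow k
  refine add_le_add ?_ ?_
  · rw [div_le_iff₀ (by positivity)]
    have h3 : 1 ≤ Real.exp (-(2 * k)) * (9 : ℝ) ^ k := by
      have h5 : Real.exp (2 * k : ℝ) ≤ (9 : ℝ) ^ k := by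
        have h6 : Real.exp (2 * k : ℝ) = (Real.exp 1 * Real.exp 1) ^ k := by
          rw [← Real.exp_add, ← Real.exp_nat_mul]
          congr 1
          ring
        rw [h6]
        refine pow_le_pow_left₀ (by positivity) ?_ k
        have := Real.exp_one_lt_d9
        have h7 := Real.exp_pos 1
        nlinarith
      calc (1 : ℝ) = Real.exp (-(2 * k)) * Real.exp (2 * k) := by
            rw [← Real.exp_add]; simp
        _ ≤ _ := by gcongr
    push_cast
    have h7 : (9 * k * N : ℝ) ^ k = 9 ^ k * (k : ℝ) ^ k * (N : ℝ) ^ k := by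
      rw [mul_pow, mul_pow]
    rw [h7]
    calc (k.factorial : ℝ) * (N : ℝ) ^ k * B ≤ ((k : ℝ) ^ k * (N : ℝ) ^ k * B) * 1 := by
          rw [mul_one]; gcongr
      _ ≤ ((k : ℝ) ^ k * (N : ℝ) ^ k * B) * (Real.exp (-(2 * k)) * (9 : ℝ) ^ k) := by
          gcongr
      _ = _ := by ring
  · rw [div_le_iff₀ (by positivity)]
    have h7 : (N : ℝ) ^ k ≤ (9 * k * N : ℝ) ^ k := by
      apply pow_le_pow_left₀ hN0.le
      have : (1 : ℝ) ≤ 9 * k := by
        have : (1 : ℝ) ≤ k := by exact_mod_cast hk1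
        linarith
      nlinarith
    calc (N : ℝ) ^ (2 * k) * W = (N : ℝ) ^ k * W * (N : ℝ) ^ k := by ring
      _ ≤ (N : ℝ) ^ k * W * (9 * k * N : ℝ) ^ k := by gcongr

/-- Weyl sums, uniformly in the number -/
theorem weylU (τ : ℕ) : ∀ᶠ y : ℝ in atTop, ∀ B : ℕ, (B : ℝ) = Real.exp (y ^ 70) →
    ∀ x : ℝ, FT x (Real.exp (-(y ^ 50))) τ → ∀ Q : ℤ[X], 1 ≤ Q.natDegree →
      (Q.natDegree : ℝ) ≤ y ^ 10 → |(Q.leadingCoeff : ℝ)| ≤ y ^ 30 →
      ‖∑ b ∈ Finset.Icc 1 B, ee (x * ((Q.eval (b : ℤ) : ℤ) : ℝ))‖ ≤ B * Real.exp (-(y ^ 20)) := by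
  filter_upwards [Pool.Agent.X121.TV.weylG τ, eventually_ge_atTop (2 : ℝ),
    eventually_ge_atTop (30 * τ + 1 : ℝ)] with y hy hy2 hyτ
  intro B hB x hx Q hQ1 hQ2 hQ3
  have hy0 : (0 : ℝ) < y := by linarith
  have hQ0 : Q ≠ 0 := by
    rintro rfl
    simp at hQ1
  obtain ⟨r, hr⟩ : ∃ r : ℕ, r = max Q.natDegree 2 := ⟨_, rfl⟩
  have hry : (r : ℝ) ≤ y ^ 10 := by
    rw [hr]
    push_cast
    refine max_le hQ2 ?_
    calc (2 : ℝ) ≤ 2 ^ 10 := by norm_num
      _ ≤ y ^ 10 := pow_le_pow_left₀ (by norm_num) hy2 10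
  refine hy B hB (fun n => ee (x * ((Q.eval (n : ℤ) : ℤ) : ℝ))) r Q.natDegree
    (by rw [hr]; exact le_max_right _ _) hry
    (by rw [Finset.mem_Icc]; exact ⟨hQ1, by rw [hr]; exact le_max_left _ _⟩) ?_
  intro b
  refine ⟨ee (x * (((taylor (b : ℤ) Q).coeff 0 : ℤ) : ℝ)),
    fun j => x * (((taylor (b : ℤ) Q).coeff j : ℤ) : ℝ), norm_ee _, ?_, ?_⟩
  · intro q hq
    show _ ≤ dz (x * (((taylor (b : ℤ) Q).coeff Q.natDegree : ℤ) : ℝ) * q)
    rw [coeff_taylor_natDegree]
    have hlq : Q.leadingCoeff * q ≠ 0 := mul_ne_zero (leadingCoeff_ne_zero.2 hQ0) hq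
    have h1 := hx (Q.leadingCoeff * q) hlq
    push_cast at h1
    have e : x * ((Q.leadingCoeff : ℝ) * q) = x * (Q.leadingCoeff : ℝ) * q := by ring
    rw [e] at h1
    refine le_trans ?_ h1
    have hq0 : (0 : ℝ) < |(q : ℝ)| := abs_pos.2 (by exact_mod_cast hq)
    have hl0 : (0 : ℝ) < |(Q.leadingCoeff : ℝ)| := abs_pos.2 (by
      exact_mod_cast leadingCoeff_ne_zero.2 hQ0)
    rw [abs_mul, mul_pow, div_le_div_iff₀ (by positivity) (by positivity)]
    have h3 : |(Q.leadingCoeff : ℝ)| ^ τ ≤ Real.exp (y ^ 2) := by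
      calc |(Q.leadingCoeff : ℝ)| ^ τ ≤ (y ^ 30) ^ τ := pow_le_pow_left₀ hl0.le hQ3 τ
        _ = y ^ (30 * τ) := by rw [← pow_mul]
        _ ≤ Real.exp (y) ^ (30 * τ) := by
            apply pow_le_pow_left₀ hy0.le
            have := Real.add_one_le_exp y
            linarith
        _ = Real.exp (30 * τ * y) := by
            rw [← Real.exp_nat_mul]
            congr 1
            push_cast
            ring
        _ ≤ Real.exp (y ^ 2) := by
            apply Real.exp_le_exp.2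
            nlinarith
    have h4 : Real.exp (-(y ^ 60)) * Real.exp (y ^ 2) ≤ Real.exp (-(y ^ 50)) := by
      rw [← Real.exp_add]
      apply Real.exp_le_exp.2
      have e1 : y ^ 2 ≤ y ^ 50 := pow_le_pow_right₀ (by linarith) (by norm_num)
      have e2 : 2 * y ^ 50 ≤ y ^ 60 := by
        have h10 : (2 : ℝ) ^ 10 ≤ y ^ 10 := pow_le_pow_left₀ (by norm_num) hy2 10
        calc 2 * y ^ 50 ≤ y ^ 10 * y ^ 50 := by
              have : (0 : ℝ) ≤ y ^ 50 := by positivity
              norm_num at h10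
              nlinarith
          _ = y ^ 60 := by ring
      linarith
    calc Real.exp (-(y ^ 60)) * (|(Q.leadingCoeff : ℝ)| ^ τ * |(q : ℝ)| ^ τ) ≤
          Real.exp (-(y ^ 60)) * (Real.exp (y ^ 2) * |(q : ℝ)| ^ τ) := by gcongr
      _ = (Real.exp (-(y ^ 60)) * Real.exp (y ^ 2)) * |(q : ℝ)| ^ τ := by ring
      _ ≤ _ := by gcongr
  · intro n
    rw [← Pool.Agent.Y93.VK.ee_add]
    congr 1
    have h1 : Q.eval (((b + n : ℕ) : ℤ)) = (taylor (b : ℤ) Q).eval (n : ℤ) := by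
      rw [taylor_eval]
      push_cast
      ring_nf
    rw [h1, Polynomial.eval_eq_sum_range' (n := r + 1)
      (by rw [natDegree_taylor, hr]; exact Nat.lt_succ_of_le (le_max_left _ _)),
      sum_range_Icc]
    push_cast
    rw [mul_add, Finset.mul_sum]
    simp only [pow_zero, mul_one]
    congr 1
    exact Finset.sum_congr rfl fun j _ => by ring

/-- the number of exceptions for one number -/
theorem one_bad (τ : ℕ) : ∀ᶠ y : ℝ in atTop, ∀ B : ℕ, (B : ℝ) = Real.exp (y ^ 70) →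
    ∀ x : ℝ, FT x (Real.exp (-(y ^ 50))) τ → ∀ B₀ N h k : ℕ, 1 ≤ N → (N : ℝ) ≤ y ^ 10 → 1 ≤ h →
      (h : ℝ) ≤ y ^ 20 → 1 ≤ k → k ≤ N →
      (((Finset.Icc 1 B).filter fun b => √(9 * k * N) ≤ SS' x h N (b + B₀)).card : ℝ) ≤
        2 * B * Real.exp (-(2 * k)) := by
  filter_upwards [weylU τ, eventually_ge_atTop (400 : ℝ)] with y hy hy2
  intro B hB x hx B₀ N h k hN hNy hh hhy hk1 hkN
  have hy0 : (0 : ℝ) < y := by linarith
  have hN1 : (1 : ℝ) ≤ N := by exact_mod_cast hN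
  have hk0 : (0 : ℝ) < k := by exact_mod_cast hk1
  have hkN' : (k : ℝ) ≤ N := by exact_mod_cast hkN
  refine (bad_card' (x := x) (k := k) (N := N) (h := h) (B := B) B₀ hN hh hk1 (Λ := y ^ 30)
    (W := B * Real.exp (-(y ^ 20))) (by positivity)
    (fun Q q1 q2 q3 => hy B hB x hx Q q1 (q2.trans hNy) q3) ?_).trans ?_
  · calc (h : ℝ) * k ≤ y ^ 20 * y ^ 10 := by
          apply mul_le_mul hhy (hkN'.trans hNy) hk0.le (by positivity)
      _ = y ^ 30 := by ring
  · have hlogN : Real.log N ≤ y := by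
      have h1 : Real.log N ≤ Real.log (y ^ 10) := Real.log_le_log (by linarith) hNy
      rw [Real.log_pow] at h1
      have h2 : Real.log y ≤ y / 10 := by
        have h3 : Real.log y = 2 * Real.log √y := by
          rw [Real.log_sqrt hy0.le]; ring
        have h4 : Real.log √y ≤ √y := by
          have := Real.log_le_sub_one_of_pos (Real.sqrt_pos.2 hy0)
          linarith
        have h5 : √y * √y = y := Real.mul_self_sqrt hy0.le
        have h6 : (20 : ℝ) ≤ √y := by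
          apply Real.le_sqrt_of_sq_le
          norm_num
          linarith
        nlinarith
      push_cast at h1
      linarith
    have e1 : (N : ℝ) ^ k = Real.exp (k * Real.log N) := by
      rw [← Real.rpow_natCast, Real.rpow_def_of_pos (by linarith)]
      congr 1
      ring
    have h3 : (N : ℝ) ^ k * (B * Real.exp (-(y ^ 20))) ≤ B * Real.exp (-(2 * k)) := by
      rw [e1]
      calc Real.exp (k * Real.log N) * (B * Real.exp (-(y ^ 20))) =
            B * Real.exp (k * Real.log N + -(y ^ 20)) := by rw [Real.exp_add]; ring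
        _ ≤ B * Real.exp (-(2 * k)) := by
            apply mul_le_mul_of_nonneg_left _ (Nat.cast_nonneg _)
            apply Real.exp_le_exp.2
            have h5 : (k : ℝ) * (Real.log N + 2) ≤ y ^ 10 * (2 * y) := by
              apply mul_le_mul (hkN'.trans hNy) (by linarith) _ (by positivity)
              have := Real.log_nonneg hN1
              linarith
            have h6 : y ^ 10 * (2 * y) ≤ y ^ 20 := by
              calc y ^ 10 * (2 * y) ≤ y ^ 10 * (y * y) := by gcongr; linarith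
                _ = y ^ 12 := by ring
                _ ≤ y ^ 20 := pow_le_pow_right₀ (by linarith) (by norm_num)
            linarith
    linarith

end Pool.Agent.X121.UH
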